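import Mathlib

set_option autoImplicit false
set_option maxHeartbeats 4000000

/-!
# The equations `x ^ n - n = y ^ m` and `x ^ n + n = y ^ m`: exponents for which the left side factors

`far` and `valuation` are copied from the starting file `Results/MP_6050fa_nt/Coprime.lean`.
-/

namespace Pool.Agent.Y241.EX

/-- two perfect powers with a common exponent are far apart -/
lemma far {A B d n : ℕ} (hB : 1 ≤ B) (hd : 2 ≤ d) (hn : n ≤ A ^ (d - 1)) (hn0 : 1 ≤ n) :
    A ^ d ≠ B ^ d + n ∧ A ^ d + n ≠ B ^ d := by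
  obtain ⟨c, rfl⟩ : ∃ c, d = c + 1 := ⟨d - 1, by omega⟩
  rw [Nat.add_sub_cancel] at hn
  have hc : c ≠ 0 := by omega
  constructor
  · intro h
    have h1 : B < A := by
      by_contra hcon
      have := Nat.pow_le_pow_left (not_lt.mp hcon) (c + 1)
      omega
    have h3 : B ^ (c + 1) < B * A ^ c := by
      rw [pow_succ, mul_comm]
      exact Nat.mul_lt_mul_of_pos_left (Nat.pow_lt_pow_left h1 hc) hB
    have h4 : (B + 1) * A ^ c ≤ A * A ^ c := Nat.mul_le_mul_right _ h1
    have h5 : A ^ (c + 1) = A * A ^ c := by rw [pow_succ, mul_comm]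
    have h6 : (B + 1) * A ^ c = B * A ^ c + A ^ c := by ring
    omega
  · intro h
    have h1 : A < B := by
      by_contra hcon
      have := Nat.pow_le_pow_left (not_lt.mp hcon) (c + 1)
      omega
    have h3 : B * A ^ c < B ^ (c + 1) := by
      rw [pow_succ, mul_comm (B ^ c) B]
      exact Nat.mul_lt_mul_of_pos_left (Nat.pow_lt_pow_left h1 hc) (by omega)
    have h4 : (A + 1) * A ^ c ≤ B * A ^ c := Nat.mul_le_mul_right _ h1
    have h5 : A ^ (c + 1) = A * A ^ c := by rw [pow_succ, mul_comm]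
    have h6 : (A + 1) * A ^ c = A * A ^ c + A ^ c := by ring
    omega

lemma valuation {x n y m p : ℕ} (hn : 2 ≤ n) (hy : 2 ≤ y)
    (h : x ^ n = y ^ m + n ∨ x ^ n + n = y ^ m) (hp : p.Prime) (hpx : p ∣ x) :
    m ∣ n.factorization p := by
  have hn0 : n ≠ 0 := by omega
  have h1 : p ^ n.factorization p ∣ n := Nat.ordProj_dvd n p
  have h2 : ¬ p ^ (n.factorization p + 1) ∣ n := Nat.pow_succ_factorization_not_dvd hn0 hp
  have hk : n.factorization p < n := Nat.factorization_lt p hn0
  have h3 : p ^ (n.factorization p + 1) ∣ x ^ n :=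
    (pow_dvd_pow_of_dvd hpx _).trans (pow_dvd_pow x hk)
  have h4 : p ^ n.factorization p ∣ x ^ n := (pow_dvd_pow p (Nat.le_succ _)).trans h3
  have hy0 : y ^ m ≠ 0 := pow_ne_zero _ (by omega)
  have h5 : p ^ n.factorization p ∣ y ^ m ∧ ¬ p ^ (n.factorization p + 1) ∣ y ^ m := by
    rcases h with h | h
    · rw [h] at h3 h4
      exact ⟨(Nat.dvd_add_left h1).mp h4, fun hc => h2 ((Nat.dvd_add_right hc).mp h3)⟩
    · rw [← h]
      exact ⟨dvd_add h4 h1, fun hc => h2 ((Nat.dvd_add_right h3).mp hc)⟩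
  have h6 : (y ^ m).factorization p = n.factorization p := by
    have a1 := (hp.pow_dvd_iff_le_factorization hy0).mp h5.1
    have a2 := mt (hp.pow_dvd_iff_le_factorization hy0).mpr h5.2
    omega
  rw [← h6, Nat.factorization_pow]
  exact ⟨y.factorization p, by simp⟩

/-- A number all of whose prime exponents are multiples of `m` is an `m`-th power. -/
lemma is_pow {A m : ℕ} (hA : A ≠ 0)
    (h : ∀ p, p.Prime → p ∣ A → m ∣ A.factorization p) : ∃ a, A = a ^ m := by
  refine ⟨∏ p ∈ A.primeFactors, p ^ (A.factorization p / m), ?_⟩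
  rw [← Finset.prod_pow]
  conv_lhs => rw [← Nat.prod_factorization_pow_eq_self hA]
  rw [Finsupp.prod, Nat.support_factorization]
  apply Finset.prod_congr rfl
  intro p hp
  rw [← pow_mul, Nat.div_mul_cancel
    (h p (Nat.prime_of_mem_primeFactors hp) (Nat.dvd_of_mem_primeFactors hp))]

lemma split {A B y m : ℕ} (hA : A ≠ 0) (hB : B ≠ 0) (h : A * B = y ^ m)
    (h1 : ∀ p, p.Prime → p ∣ A → p ∣ B → m ∣ A.factorization p ∧ m ∣ B.factorization p) :
    (∃ a, A = a ^ m) ∧ ∃ b, B = b ^ m := by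
  have key : ∀ p, A.factorization p + B.factorization p = m * y.factorization p := by
    intro p
    have := congrArg (fun z => z.factorization p) h
    simpa [Nat.factorization_mul hA hB, Nat.factorization_pow] using this
  constructor
  · apply is_pow hA
    intro p hp hpA
    by_cases hpB : p ∣ B
    · exact (h1 p hp hpA hpB).1
    · have := key p
      rw [Nat.factorization_eq_zero_of_not_dvd hpB, add_zero] at this
      exact ⟨_, this⟩
  · apply is_pow hB
    intro p hp hpB
    by_cases hpA : p ∣ A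
    · exact (h1 p hp hpA hpB).2
    · have := key p
      rw [Nat.factorization_eq_zero_of_not_dvd hpA, zero_add] at this
      exact ⟨_, this⟩

lemma val_iff {p v w : ℕ} (hp : p.Prime) (hv : v ≠ 0) (hw : w ≠ 0)
    (h : ∀ j, j ≤ v.factorization p + 1 → (p ^ j ∣ w ↔ p ^ j ∣ v)) :
    w.factorization p = v.factorization p := by
  have a1 := (hp.pow_dvd_iff_le_factorization hw).mp
    ((h _ (Nat.le_succ _)).2 (Nat.ordProj_dvd v p))
  have a2 := mt (hp.pow_dvd_iff_le_factorization hw).mpr
    (fun hc => Nat.pow_succ_factorization_not_dvd hv hp ((h _ le_rfl).1 hc))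
  omega

lemma sq_le_two_pow {n : ℕ} (hn : 4 ≤ n) : n ^ 2 ≤ 2 ^ n := by
  induction n, hn using Nat.le_induction with
  | base => norm_num
  | succ k hk ih =>
    rw [pow_succ 2 k]
    nlinarith

lemma bern (a c : ℕ) : a ^ (c + 1) + (c + 1) * a ^ c ≤ (a + 1) ^ (c + 1) := by
  induction c with
  | zero => simp
  | succ c ih =>
    calc a ^ (c + 1 + 1) + (c + 1 + 1) * a ^ (c + 1)
        ≤ (a ^ (c + 1) + (c + 1) * a ^ c) * (a + 1) := by
          have : 0 ≤ (c + 1) * a ^ c := Nat.zero_le _
          rw [pow_succ a (c + 1)]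
          rw [pow_succ a c]
          nlinarith
      _ ≤ (a + 1) ^ (c + 1) * (a + 1) := Nat.mul_le_mul_right _ ih
      _ = (a + 1) ^ (c + 1 + 1) := (pow_succ _ _).symm

lemma nopow {a m : ℕ} (hm : 3 ≤ m) :
    a ^ m ≠ 2 ∧ a ^ m ≠ 3 ∧ a ^ m ≠ 5 ∧ a ^ m ≠ 10 ∧ a ^ m ≠ 17 := by
  obtain ⟨c, rfl⟩ : ∃ c, m = c + 3 := ⟨m - 3, by omega⟩
  rcases Nat.lt_or_ge a 3 with h | h
  · interval_cases a
    · simp
    · simp
    · rw [pow_add]
      norm_num
      omega
  · have h1 : 27 ≤ a ^ (c + 3) := by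
      calc 27 = 3 ^ 3 := by norm_num
        _ ≤ 3 ^ (c + 3) := Nat.pow_le_pow_right (by norm_num) (by omega)
        _ ≤ a ^ (c + 3) := Nat.pow_le_pow_left h _
    omega

theorem sq_case {x n y m k X : ℕ} (hx : 2 ≤ x) (hn : 2 ≤ n) (hy : 2 ≤ y) (hm : 2 ≤ m)
    (hk : n = k ^ 2) (hX : x ^ n = X ^ 2) (hev : Even x ∨ Even n) (h : x ^ n = y ^ m + n) :
    False := by
  have hk2 : 2 ≤ k := by
    by_contra hcon
    have : k ≤ 1 := by omega
    interval_cases k <;> omega
  have hn4 : 4 ≤ n := by nlinarith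
  have hpow := sq_le_two_pow hn4
  have hxn : 2 ^ n ≤ x ^ n := Nat.pow_le_pow_left hx n
  have hnX : n ≤ X := by
    have h1 : n ^ 2 ≤ X ^ 2 := by rw [← hX]; exact hpow.trans hxn
    by_contra hcon
    push Not at hcon
    have := Nat.pow_lt_pow_left hcon (two_ne_zero)
    omega
  have hmodd : Odd m := by
    by_contra hcon
    rw [Nat.not_odd_iff_even] at hcon
    obtain ⟨c, hc⟩ := hcon
    have hY : y ^ m = (y ^ c) ^ 2 := by
      rw [← pow_mul, hc]
      congr 1
      ring
    have h1 := (far (A := X) (B := y ^ c) (d := 2) (n := n) (Nat.one_le_pow _ _ (by omega)) le_rfl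
      (by simpa using hnX) (by omega)).1
    apply h1
    rw [← hX, ← hY]
    exact h
  have hm3 : 3 ≤ m := by
    rcases hmodd with ⟨c, hc⟩
    omega
  have hkX : k < X := by nlinarith
  obtain ⟨A, hA⟩ : ∃ A, A + k = X := ⟨X - k, Nat.sub_add_cancel hkX.le⟩
  have hA0 : A ≠ 0 := by omega
  have hB0 : X + k ≠ 0 := by omega
  have hX0 : X ≠ 0 := by omega
  have hAB : A * (X + k) = y ^ m := by
    have h1 : A * (X + k) + k ^ 2 = X ^ 2 := by
      rw [← hA]
      ring
    rw [← hX, ← hk, h] at h1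
    exact Nat.add_right_cancel h1
  have hs : (∃ a, A = a ^ m) ∧ ∃ b, X + k = b ^ m := by
    apply split hA0 hB0 hAB
    intro p hp hpA hpB
    have hpx : p ∣ x := by
      by_contra hpx
      have h2X : p ∣ 2 * X := by
        have h1 : A + (X + k) = 2 * X := by omega
        rw [← h1]
        exact dvd_add hpA hpB
      rcases (hp.dvd_mul).1 h2X with h2 | h2
      · have hp2 : p = 2 := (Nat.prime_dvd_prime_iff_eq hp Nat.prime_two).1 h2
        subst hp2
        have hxo : ¬ Even x := fun he => hpx he.two_dvd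
        have hne : Even n := hev.resolve_left hxo
        have hke : Even k := by
          rw [hk, Nat.even_pow] at hne
          exact hne.1
        have h3 : Even (X + k) := even_iff_two_dvd.2 hpB
        have hXe : Even X := (Nat.even_add.1 h3).2 hke
        have h4 : Even (x ^ n) := by
          rw [hX, Nat.even_pow]
          exact ⟨hXe, by norm_num⟩
        exact hxo ((Nat.even_pow.1 h4).1)
      · apply hpx
        apply hp.dvd_of_dvd_pow (n := n)
        rw [hX]
        exact dvd_pow h2 two_ne_zero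
    have hd : m ∣ k.factorization p := by
      have h3 := valuation hn hy (Or.inl h) hp hpx
      rw [hk, Nat.factorization_pow] at h3
      have h4 : m ∣ 2 * k.factorization p := by simpa using h3
      exact (Nat.coprime_two_right.2 hmodd).dvd_of_dvd_mul_left h4
    have hvX : k.factorization p + 1 ≤ X.factorization p := by
      have h5 : n * x.factorization p = 2 * X.factorization p := by
        have := congrArg (fun z => z.factorization p) hX
        simpa [Nat.factorization_pow] using this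
      have h6 : 1 ≤ x.factorization p := (hp.dvd_iff_one_le_factorization (by omega)).1 hpx
      have h7 : k.factorization p < k := Nat.factorization_lt p (by omega)
      have h8 : n ≤ n * x.factorization p := Nat.le_mul_of_pos_right _ h6
      have h9 : 2 * k ≤ n := by nlinarith
      omega
    have hdX : p ^ (k.factorization p + 1) ∣ X := (hp.pow_dvd_iff_le_factorization hX0).2 hvX
    constructor
    · rw [val_iff (v := k) hp (by omega) hA0]
      · exact hd
      · intro j hj
        have hj' : p ^ j ∣ A + k := by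
          rw [hA]
          exact (pow_dvd_pow p hj).trans hdX
        exact ⟨fun h => (Nat.dvd_add_right h).1 hj', fun h => (Nat.dvd_add_left h).1 hj'⟩
    · rw [val_iff (v := k) hp (by omega) hB0]
      · exact hd
      · intro j hj
        exact Nat.dvd_add_right ((pow_dvd_pow p hj).trans hdX)
  obtain ⟨⟨a, ha⟩, b, hb⟩ := hs
  have hb1 : 1 ≤ b := by
    rcases Nat.eq_zero_or_pos b with h0 | h0
    · rw [h0, zero_pow (by omega)] at hb
      omega
    · exact h0
  have ha1 : 1 ≤ a := by
    rcases Nat.eq_zero_or_pos a with h0 | h0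
    · rw [h0, zero_pow (by omega)] at ha
      omega
    · exact h0
  have hP : 2 * k ≤ b ^ (m - 1) := by
    by_contra hlt
    push Not at hlt
    have h1 : (X + k) ^ 2 ≤ (b ^ (m - 1)) ^ 3 := by
      rw [hb, ← pow_mul, ← pow_mul]
      exact Nat.pow_le_pow_right hb1 (by omega)
    have h2 : (b ^ (m - 1)) ^ 3 < (2 * k) ^ 3 := Nat.pow_lt_pow_left hlt (by norm_num)
    have h3 : (X + k) ^ 2 < (2 * k) ^ 3 := lt_of_le_of_lt h1 h2
    have h4 : 2 ^ n ≤ X ^ 2 := by rw [← hX]; exact hxn
    rcases Nat.lt_or_ge k 6 with hk6 | hk6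
    · interval_cases k
      · subst hk
        have h5 : X < 6 := by nlinarith
        have h6 := nopow (a := a) hm3
        rw [← ha] at h6
        omega
      all_goals
        subst hk
        have h5 := lt_of_le_of_lt (h4.trans (Nat.pow_le_pow_left (Nat.le_add_right X _) 2)) h3
        norm_num at h5
    · have h5 : (k ^ 2 + k) ^ 2 ≤ (X + k) ^ 2 := Nat.pow_le_pow_left (by omega) 2
      have h6 : (2 * k) ^ 3 ≤ (k ^ 2 + k) ^ 2 := by
        have h7 : 8 * k ≤ (k + 1) ^ 2 := by nlinarith
        calc (2 * k) ^ 3 = k ^ 2 * (8 * k) := by ring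
          _ ≤ k ^ 2 * (k + 1) ^ 2 := Nat.mul_le_mul_left _ h7
          _ = (k ^ 2 + k) ^ 2 := by ring
      omega
  have hfar := (far (A := b) (B := a) (d := m) (n := 2 * k) ha1 (by omega) hP (by omega)).1
  apply hfar
  rw [← ha, ← hb]
  omega

theorem quart_case {x n y m t : ℕ} (hx : 2 ≤ x) (hn : 2 ≤ n) (hy : 2 ≤ y) (hm : 2 ≤ m)
    (ht : n = 4 * t ^ 4) (h : x ^ n + n = y ^ m) : False := by
  obtain ⟨X, hXd⟩ : ∃ X, X = x ^ (t ^ 4) := ⟨_, rfl⟩
  have hX : x ^ n = X ^ 4 := by rw [hXd, ht, mul_comm, pow_mul]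
  have ht1 : 1 ≤ t := by
    rcases Nat.eq_zero_or_pos t with h0 | h0
    · subst h0
      omega
    · exact h0
  have ht41 : 1 ≤ t ^ 4 := Nat.one_le_pow _ _ ht1
  have hn4 : 4 ≤ n := by omega
  have hpow := sq_le_two_pow hn4
  have hxn : 2 ^ n ≤ x ^ n := Nat.pow_le_pow_left hx n
  have hnX : n ≤ X ^ 2 := by
    have h1 : n ^ 2 ≤ (X ^ 2) ^ 2 := by
      rw [← pow_mul, ← hX]
      exact hpow.trans hxn
    by_contra hcon
    push Not at hcon
    have := Nat.pow_lt_pow_left hcon (two_ne_zero)
    omega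
  have hmodd : Odd m := by
    by_contra hcon
    rw [Nat.not_odd_iff_even] at hcon
    obtain ⟨c, hc⟩ := hcon
    have hY : y ^ m = (y ^ c) ^ 2 := by
      rw [← pow_mul, hc]
      congr 1
      ring
    have h1 := (far (A := X ^ 2) (B := y ^ c) (d := 2) (n := n) (Nat.one_le_pow _ _ (by omega))
      le_rfl (by simpa using hnX) (by omega)).2
    apply h1
    rw [← pow_mul, ← hY, ← h, hX]
  have hm3 : 3 ≤ m := by
    rcases hmodd with ⟨c, hc⟩
    omega
  have htt : t ≤ t ^ 4 := Nat.le_self_pow (by norm_num) t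
  have htX : t < X := by
    rw [hXd]
    exact lt_of_le_of_lt htt ((Nat.lt_two_pow_self).trans_le (Nat.pow_le_pow_left hx _))
  obtain ⟨c, hc⟩ : ∃ c, X = t + c := ⟨X - t, by omega⟩
  obtain ⟨A, hAd⟩ : ∃ A, A = c ^ 2 + t ^ 2 := ⟨_, rfl⟩
  obtain ⟨B, hBd⟩ : ∃ B, B = (2 * t + c) ^ 2 + t ^ 2 := ⟨_, rfl⟩
  have hAB : A * B = y ^ m := by
    rw [← h, hX, ht, hAd, hBd, hc]
    ring
  have hA : A + 2 * X * t = X ^ 2 + 2 * t ^ 2 := by
    rw [hAd, hc]
    ring
  have hB : B = (X ^ 2 + 2 * X * t) + 2 * t ^ 2 := by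
    rw [hBd, hc]
    ring
  have hBA : B = A + 4 * X * t := by
    rw [hAd, hBd, hc]
    ring
  have hA0 : A ≠ 0 := by
    have : 1 ≤ t ^ 2 := Nat.one_le_pow _ _ ht1
    omega
  have hB0 : B ≠ 0 := by
    have : 1 ≤ t ^ 2 := Nat.one_le_pow _ _ ht1
    omega
  have hX0 : X ≠ 0 := by omega
  have hs : (∃ a, A = a ^ m) ∧ ∃ b, B = b ^ m := by
    apply split hA0 hB0 hAB
    intro p hp hpA hpB
    have hpx : p ∣ x := by
      have hpX : p ∣ X := by
        have h1 : p ∣ 4 * X * t := by
          rw [hBA] at hpB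
          exact (Nat.dvd_add_right hpA).1 hpB
        by_contra hpX
        have h2 : p ∣ 2 * t := by
          rcases (hp.dvd_mul).1 h1 with h3 | h3
          · rcases (hp.dvd_mul).1 h3 with h4 | h4
            · have h5 : p ∣ 2 := hp.dvd_of_dvd_pow (n := 2) (by norm_num; exact h4)
              exact h5.mul_right t
            · exact absurd h4 hpX
          · exact h3.mul_left 2
        have h3 : B = X ^ 2 + 2 * t * (X + t) := by
          rw [hB]
          ring
        rw [h3] at hpB
        exact hpX (hp.dvd_of_dvd_pow ((Nat.dvd_add_left (h2.mul_right _)).1 hpB))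
      rw [hXd] at hpX
      exact hp.dvd_of_dvd_pow hpX
    have h20 : 2 * t ^ 2 ≠ 0 := by positivity
    have hd : m ∣ (2 * t ^ 2).factorization p := by
      have h3 := valuation hn hy (Or.inr h) hp hpx
      have h4 : n = (2 * t ^ 2) ^ 2 := by
        rw [ht]
        ring
      rw [h4, Nat.factorization_pow] at h3
      have h5 : m ∣ 2 * (2 * t ^ 2).factorization p := by simpa using h3
      exact (Nat.coprime_two_right.2 hmodd).dvd_of_dvd_mul_left h5
    have e1 : (2 * t ^ 2).factorization p = (2 : ℕ).factorization p + 2 * t.factorization p := by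
      rw [Nat.factorization_mul two_ne_zero (by positivity), Nat.factorization_pow]
      simp
    have e2 : (2 * X * t).factorization p =
        (2 : ℕ).factorization p + X.factorization p + t.factorization p := by
      rw [Nat.factorization_mul (by positivity) (by omega),
        Nat.factorization_mul two_ne_zero hX0]
      simp
    have e3 : (X ^ 2).factorization p = 2 * X.factorization p := by
      rw [Nat.factorization_pow]
      simp
    have e4 : (2 : ℕ).factorization p < 2 := Nat.factorization_lt p two_ne_zero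
    have e5 : t.factorization p < t := Nat.factorization_lt p (by omega)
    have e6 : t ^ 4 ≤ X.factorization p := by
      rw [hXd, Nat.factorization_pow]
      have h6 : 1 ≤ x.factorization p := (hp.dvd_iff_one_le_factorization (by omega)).1 hpx
      simpa using Nat.le_mul_of_pos_right (t ^ 4) h6
    have d1 : p ^ ((2 * t ^ 2).factorization p + 1) ∣ 2 * X * t :=
      (hp.pow_dvd_iff_le_factorization (by positivity)).2 (by omega)
    have d2 : p ^ ((2 * t ^ 2).factorization p + 1) ∣ X ^ 2 :=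
      (hp.pow_dvd_iff_le_factorization (by positivity)).2 (by omega)
    constructor
    · rw [val_iff (v := 2 * t ^ 2) hp h20 hA0]
      · exact hd
      · intro j hj
        have j1 := (pow_dvd_pow p hj).trans d1
        have j2 := (pow_dvd_pow p hj).trans d2
        rw [← Nat.dvd_add_left j1, hA, Nat.dvd_add_right j2]
    · rw [val_iff (v := 2 * t ^ 2) hp h20 hB0]
      · exact hd
      · intro j hj
        have j1 := (pow_dvd_pow p hj).trans d1
        have j2 := (pow_dvd_pow p hj).trans d2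
        rw [hB, Nat.dvd_add_right (dvd_add j2 j1)]
  obtain ⟨⟨a, ha⟩, b, hb⟩ := hs
  obtain ⟨e, rfl⟩ : ∃ e, m = e + 3 := ⟨m - 3, by omega⟩
  have hXt : 0 < 4 * X * t := by positivity
  have hab : a < b := by
    by_contra hcon
    have := Nat.pow_le_pow_left (not_lt.1 hcon) (e + 3)
    omega
  have ha1 : 1 ≤ a := by
    rcases Nat.eq_zero_or_pos a with h0 | h0
    · rw [h0, zero_pow (by omega)] at ha
      omega
    · exact h0
  have hb1 : a ^ (e + 3) + (e + 3) * a ^ (e + 2) ≤ b ^ (e + 3) :=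
    (bern a (e + 2)).trans (Nat.pow_le_pow_left hab _)
  have h3 : 3 * a ^ (e + 2) ≤ 4 * X * t := by
    have h4 : 3 * a ^ (e + 2) ≤ (e + 3) * a ^ (e + 2) := Nat.mul_le_mul_right _ (by omega)
    rw [← ha, ← hb] at hb1
    omega
  have h4 : 27 * A ^ 2 ≤ (4 * X * t) ^ 3 := by
    calc 27 * A ^ 2 = 27 * a ^ (2 * e + 6) := by
          rw [ha, ← pow_mul]
          congr 2
          ring
      _ ≤ 27 * a ^ (3 * e + 6) := Nat.mul_le_mul_left _ (Nat.pow_le_pow_right ha1 (by omega))
      _ = (3 * a ^ (e + 2)) ^ 3 := by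
          rw [mul_pow, ← pow_mul]
          congr 2
          ring
      _ ≤ (4 * X * t) ^ 3 := Nat.pow_le_pow_left h3 3
  rcases Nat.lt_or_ge t 2 with ht2 | ht2
  · have ht' : t = 1 := by omega
    subst ht'
    have h5 : X < 6 := by
      by_contra hcon
      push Not at hcon
      obtain ⟨z, rfl⟩ : ∃ z, X = z + 6 := ⟨X - 6, by omega⟩
      have h6 : A = z ^ 2 + 10 * z + 26 := by
        have : A + 2 * (z + 6) * 1 = (z + 6) ^ 2 + 2 * 1 ^ 2 := hA
        nlinarith
      rw [h6] at h4
      nlinarith [sq_nonneg z, pow_pos (Nat.succ_pos z) 3, Nat.zero_le (z ^ 3), Nat.zero_le (z ^ 4)]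
    have h6 := nopow (a := a) hm3
    rw [← ha] at h6
    have h7 : 1 < X := htX
    interval_cases X <;> omega
  · have h5 : X ^ 2 ≤ 2 * A := by
      have h6 : 2 * A = X ^ 2 + (c - t : ℤ) ^ 2 := by
        rw [hAd, hc]
        push_cast
        ring
      zify
      rw [h6]
      nlinarith [sq_nonneg ((c : ℤ) - t)]
    have h6 : 27 * X ^ 4 ≤ 256 * X ^ 3 * t ^ 3 := by
      have h7 : X ^ 4 ≤ 4 * A ^ 2 := by
        calc X ^ 4 = (X ^ 2) ^ 2 := by ring
          _ ≤ (2 * A) ^ 2 := Nat.pow_le_pow_left h5 2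
          _ = 4 * A ^ 2 := by ring
      have h8 : (4 * X * t) ^ 3 = 64 * (X ^ 3 * t ^ 3) := by ring
      have h9 : 256 * X ^ 3 * t ^ 3 = 256 * (X ^ 3 * t ^ 3) := by ring
      omega
    have h7 : 27 * X ≤ 256 * t ^ 3 := by
      have h8 : X ^ 3 * (27 * X) ≤ X ^ 3 * (256 * t ^ 3) := by
        calc X ^ 3 * (27 * X) = 27 * X ^ 4 := by ring
          _ ≤ 256 * X ^ 3 * t ^ 3 := h6
          _ = X ^ 3 * (256 * t ^ 3) := by ring
      exact Nat.le_of_mul_le_mul_left h8 (by positivity)
    have h8 : (t ^ 4) ^ 2 ≤ X := by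
      rw [hXd]
      have h9 : 4 ≤ t ^ 4 := by
        calc 4 ≤ 2 ^ 4 := by norm_num
          _ ≤ t ^ 4 := Nat.pow_le_pow_left ht2 4
      exact (sq_le_two_pow h9).trans (Nat.pow_le_pow_left hx _)
    have h9 : 32 * t ^ 3 ≤ (t ^ 4) ^ 2 := by
      calc 32 * t ^ 3 = 2 ^ 5 * t ^ 3 := by norm_num
        _ ≤ t ^ 5 * t ^ 3 := Nat.mul_le_mul_right _ (Nat.pow_le_pow_left ht2 5)
        _ = (t ^ 4) ^ 2 := by ring
    have h10 : 1 ≤ t ^ 3 := Nat.one_le_pow _ _ ht1
    omega

end Pool.Agent.Y241.EX
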