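import Mathlib
import Pool.Agent.Y241.EX.Basic

set_option autoImplicit false
set_option maxHeartbeats 4000000

/-!
# The equations `x ^ n - n = y ^ m` and `x ^ n + n = y ^ m` when `n` is a cube divisible by three
-/

namespace Pool.Agent.Y241.EX

lemma size_X {x l X : ℕ} (hx : 2 ≤ x) (hl : 1 ≤ l) (hX : X = x ^ (9 * l ^ 3)) :
    128 * (l + 1) ^ 2 ≤ X := by
  have h1 : l ≤ l ^ 3 := Nat.le_self_pow (by norm_num) l
  have h2 : l + 1 ≤ 2 ^ (l ^ 3) := by
    have : l ^ 3 < 2 ^ (l ^ 3) := Nat.lt_two_pow_self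
    omega
  calc 128 * (l + 1) ^ 2 = 2 ^ 7 * (l + 1) ^ 2 := by norm_num
    _ ≤ (l + 1) ^ 7 * (l + 1) ^ 2 := Nat.mul_le_mul_right _ (Nat.pow_le_pow_left (by omega) 7)
    _ = (l + 1) ^ 9 := by ring
    _ ≤ (2 ^ (l ^ 3)) ^ 9 := Nat.pow_le_pow_left h2 9
    _ = 2 ^ (9 * l ^ 3) := by rw [← pow_mul, mul_comm]
    _ ≤ x ^ (9 * l ^ 3) := Nat.pow_le_pow_left hx _
    _ = X := hX.symm

/-- Both size bounds from the form of `X`. -/
lemma size_k {x n k X : ℕ} (hx : 2 ≤ x) (hk2 : 2 ≤ k) (hnk : n = k ^ 3) (hx3 : x ^ n = X ^ 3)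
    (h3 : 3 ∣ n ∨ ∃ z : ℕ, x = z ^ 3) : (3 * k + 1) ^ 2 + k ≤ X := by
  rcases h3 with h3 | ⟨z, hz⟩
  · rw [hnk] at h3
    obtain ⟨l, hl⟩ := Nat.prime_three.dvd_of_dvd_pow h3
    have hX : X = x ^ (9 * l ^ 3) := by
      have h1 : (x ^ (9 * l ^ 3)) ^ 3 = X ^ 3 := by
        rw [← hx3, ← pow_mul, hnk, hl]
        congr 1
        ring
      exact (Nat.pow_left_injective (by norm_num) h1).symm
    have h2 := size_X hx (by omega) hX
    rw [hl]
    nlinarith
  · have hX : X = z ^ n := by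
      have h1 : (z ^ n) ^ 3 = X ^ 3 := by
        rw [← hx3, hz, ← pow_mul, ← pow_mul, mul_comm]
      exact (Nat.pow_left_injective (by norm_num) h1).symm
    have hz2 : 2 ≤ z := by
      by_contra hcon
      have : z ≤ 1 := by omega
      interval_cases z <;> omega
    have hk4 : 16 ≤ k ^ 4 := by
      calc 16 = 2 ^ 4 := by norm_num
        _ ≤ k ^ 4 := Nat.pow_le_pow_left hk2 4
    have hk3 : 4 ≤ k ^ 3 := by
      calc 4 ≤ 2 ^ 3 := by norm_num
        _ ≤ k ^ 3 := Nat.pow_le_pow_left hk2 3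
    have h1 : (k ^ 3) ^ 2 ≤ X := by
      rw [hX, hnk]
      exact (sq_le_two_pow hk3).trans (Nat.pow_le_pow_left hz2 _)
    have h2 : 16 * k ^ 2 ≤ (k ^ 3) ^ 2 := by
      calc 16 * k ^ 2 ≤ k ^ 4 * k ^ 2 := Nat.mul_le_mul_right _ hk4
        _ = (k ^ 3) ^ 2 := by ring
    nlinarith

/-- The common part: the two factors are `m`-th powers. -/
theorem cube_split {x n y m k X A B : ℕ} (hx : 2 ≤ x) (hn : 2 ≤ n) (hy : 2 ≤ y)
    (hk2' : 2 ≤ k) (h3x : 3 ∣ k ∨ 3 ∣ x) (hnk : n = k ^ 3) (hx3 : x ^ n = X ^ 3) (hX0 : X ≠ 0)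
    (h : x ^ n = y ^ m + n ∨ x ^ n + n = y ^ m) (hm3 : Nat.Coprime m 3)
    (hAB : A * B = y ^ m) (hA0 : A ≠ 0) (hB0 : B ≠ 0)
    (hA : A + k = X ∨ A = X + k) (hB : B = X * (X + k) + k ^ 2 ∨ B + X * k = X ^ 2 + k ^ 2)
    (hd : B = A ^ 2 + 3 * X * k ∨ B + 3 * X * k = A ^ 2) :
    (∃ a, A = a ^ m) ∧ ∃ b, B = b ^ m := by
  have hk0 : k ≠ 0 := by omega
  apply split hA0 hB0 hAB
  intro p hp hpA hpB
  have hpx : p ∣ x := by
    have hpX : p ∣ X := by
      by_contra hpX
      have hpx' : ¬ p ∣ x := fun hc => hpX (hp.dvd_of_dvd_pow (n := 3) (by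
        rw [← hx3]
        exact dvd_pow hc (by omega)))
      have h1 : p ∣ 3 * X * k := by
        rcases hd with hd | hd
        · rw [hd] at hpB
          exact (Nat.dvd_add_right (dvd_pow hpA two_ne_zero)).1 hpB
        · have h2 : p ∣ A ^ 2 := dvd_pow hpA two_ne_zero
          rw [← hd] at h2
          exact (Nat.dvd_add_right hpB).1 h2
      have hpk : p ∣ k := by
        rcases (hp.dvd_mul).1 h1 with h3 | h3
        · rcases (hp.dvd_mul).1 h3 with h4 | h4
          · have hp3 : p = 3 := (Nat.prime_dvd_prime_iff_eq hp Nat.prime_three).1 h4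
            subst hp3
            exact h3x.resolve_right hpx'
          · exact absurd h4 hpX
        · exact h3
      rcases hA with hA | hA
      · rw [← hA] at hpX
        exact hpX (dvd_add hpA hpk)
      · rw [hA] at hpA
        exact hpX ((Nat.dvd_add_left hpk).1 hpA)
    have h5 : p ∣ x ^ n := by
      rw [hx3]
      exact dvd_pow hpX (by norm_num)
    exact hp.dvd_of_dvd_pow h5
  have hdk : m ∣ k.factorization p := by
    have h3 := valuation hn hy h hp hpx
    rw [hnk, Nat.factorization_pow] at h3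
    have h4 : m ∣ 3 * k.factorization p := by simpa using h3
    exact hm3.dvd_of_dvd_mul_left h4
  have hvX : k.factorization p + 1 ≤ X.factorization p := by
    have h6 : 1 ≤ x.factorization p := (hp.dvd_iff_one_le_factorization (by omega)).1 hpx
    have h7 : k.factorization p < k := Nat.factorization_lt p hk0
    have h5 : n * x.factorization p = 3 * X.factorization p := by
      have := congrArg (fun z => z.factorization p) hx3
      simpa [Nat.factorization_pow] using this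
    have h8 : n ≤ n * x.factorization p := Nat.le_mul_of_pos_right _ h6
    have h9 : 3 * k ≤ n := by
      rw [hnk]
      have : 4 ≤ k ^ 2 := by nlinarith
      calc 3 * k ≤ k ^ 2 * k := Nat.mul_le_mul_right _ (by omega)
        _ = k ^ 3 := by ring
    omega
  have hdX : p ^ (k.factorization p + 1) ∣ X := (hp.pow_dvd_iff_le_factorization hX0).2 hvX
  have hk2 : (k ^ 2).factorization p = 2 * k.factorization p := by
    rw [Nat.factorization_pow]
    simp
  have hpk : p ^ (k.factorization p) ∣ k := Nat.ordProj_dvd k p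
  have d1 : p ^ ((k ^ 2).factorization p + 1) ∣ X * k := by
    rw [hk2, show 2 * k.factorization p + 1 = (k.factorization p + 1) + k.factorization p by ring,
      pow_add]
    exact mul_dvd_mul hdX hpk
  have d2 : p ^ ((k ^ 2).factorization p + 1) ∣ X ^ 2 := by
    rw [hk2, sq]
    refine dvd_trans ?_ (mul_dvd_mul hdX hdX)
    rw [← pow_add]
    exact pow_dvd_pow p (by omega)
  constructor
  · rw [val_iff (v := k) hp hk0 hA0]
    · exact hdk
    · intro j hj
      have hj' := (pow_dvd_pow p hj).trans hdX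
      rcases hA with hA | hA
      · rw [← hA] at hj'
        exact ⟨fun h => (Nat.dvd_add_right h).1 hj', fun h => (Nat.dvd_add_left h).1 hj'⟩
      · rw [hA]
        exact Nat.dvd_add_right hj'
  · rw [val_iff (v := k ^ 2) hp (by positivity) hB0]
    · rw [hk2]
      exact hdk.mul_left 2
    · intro j hj
      have j1 := (pow_dvd_pow p hj).trans d1
      have j2 := (pow_dvd_pow p hj).trans d2
      rcases hB with hB | hB
      · rw [hB, show X * (X + k) + k ^ 2 = (X ^ 2 + X * k) + k ^ 2 by ring,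
          Nat.dvd_add_right (dvd_add j2 j1)]
      · rw [← Nat.dvd_add_left j1, hB, Nat.dvd_add_right j2]

lemma cop3 {x n y m k X : ℕ} (hy : 2 ≤ y) (hk2 : 2 ≤ k)
    (hnk : n = k ^ 3) (hXl : (3 * k + 1) ^ 2 + k ≤ X) (hx3 : x ^ n = X ^ 3)
    (h : x ^ n = y ^ m + n ∨ x ^ n + n = y ^ m) : Nat.Coprime m 3 := by
  rw [Nat.coprime_comm, Nat.Prime.coprime_iff_not_dvd Nat.prime_three]
  rintro ⟨c, hc⟩
  have hY : y ^ m = (y ^ c) ^ 3 := by
    rw [← pow_mul, hc]
    congr 1
    ring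
  have hkk : k ^ 2 ≤ X := by nlinarith
  have hs : n ≤ X ^ (3 - 1) := by
    have h1 : n ≤ X * X := by
      calc n = k ^ 2 * k := by rw [hnk]; ring
        _ ≤ X * X := Nat.mul_le_mul hkk (by nlinarith)
    simpa [sq] using h1
  have hn1 : 1 ≤ n := by
    rw [hnk]
    exact Nat.one_le_pow _ _ (by omega)
  have h1 := far (A := X) (B := y ^ c) (d := 3) (n := n) (Nat.one_le_pow _ _ (by omega))
    (by norm_num) hs hn1
  rw [← hx3, ← hY] at h1
  rcases h with h | h
  · exact h1.1 h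
  · exact h1.2 h

/-- Size bounds. -/
lemma big {a m : ℕ} (k : ℕ) (ha : 1 ≤ a) (hm : 4 ≤ m) (h : (3 * k + 1) ^ 2 ≤ a ^ m)
    (h2 : 3 * k ^ 2 ≤ a ^ m) : 3 * k * a ^ m + 3 * k ^ 2 ≤ (a ^ 2) ^ (m - 1) := by
  obtain ⟨e, rfl⟩ : ∃ e, m = e + 4 := ⟨m - 4, by omega⟩
  have h1 : 3 * k + 1 ≤ a ^ (e + 2) := by
    by_contra hcon
    push Not at hcon
    have h3 : (a ^ (e + 2)) ^ 2 < (3 * k + 1) ^ 2 := Nat.pow_lt_pow_left hcon two_ne_zero
    have h4 : a ^ (e + 4) ≤ (a ^ (e + 2)) ^ 2 := by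
      rw [← pow_mul]
      exact Nat.pow_le_pow_right ha (by omega)
    omega
  calc 3 * k * a ^ (e + 4) + 3 * k ^ 2 ≤ 3 * k * a ^ (e + 4) + a ^ (e + 4) :=
        Nat.add_le_add_left h2 _
    _ = (3 * k + 1) * a ^ (e + 4) := by ring
    _ ≤ a ^ (e + 2) * a ^ (e + 4) := Nat.mul_le_mul_right _ h1
    _ = (a ^ 2) ^ (e + 4 - 1) := by
        rw [← pow_add, ← pow_mul]
        congr 1
        omega

theorem cube_minus {x n y m k X : ℕ} (hx : 2 ≤ x) (hn : 2 ≤ n) (hy : 2 ≤ y) (hm : 2 ≤ m)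
    (hnk : n = k ^ 3) (hx3 : x ^ n = X ^ 3) (h3x : 3 ∣ k ∨ 3 ∣ x)
    (h3z : 3 ∣ n ∨ ∃ z : ℕ, x = z ^ 3) (h : x ^ n = y ^ m + n) : False := by
  have hk2 : 2 ≤ k := by
    by_contra hcon
    have : k ≤ 1 := by omega
    interval_cases k <;> omega
  have hkpos : 0 < k := by omega
  have h1X := size_k hx hk2 hnk hx3 h3z
  have hX0 : X ≠ 0 := by omega
  have hm3 := cop3 hy hk2 hnk h1X hx3 (Or.inl h)
  have hkX : k < X := by nlinarith
  obtain ⟨A, hA⟩ : ∃ A, A + k = X := ⟨X - k, Nat.sub_add_cancel hkX.le⟩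
  have hA0 : A ≠ 0 := by omega
  have hAB : A * (X * (X + k) + k ^ 2) = y ^ m := by
    have h1 : A * (X * (X + k) + k ^ 2) + k ^ 3 = X ^ 3 := by
      rw [← hA]
      ring
    rw [← hx3, ← hnk, h] at h1
    exact Nat.add_right_cancel h1
  obtain ⟨⟨a, ha⟩, b, hb⟩ := cube_split hx hn hy hk2 h3x hnk hx3 hX0 (Or.inl h) hm3 hAB hA0
    (by positivity) (Or.inl hA) (Or.inl rfl) (Or.inl (by rw [← hA]; ring))
  have ha1 : 1 ≤ a := by
    rcases Nat.eq_zero_or_pos a with h0 | h0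
    · rw [h0, zero_pow (by omega)] at ha
      omega
    · exact h0
  have hAl : (3 * k + 1) ^ 2 ≤ A := by omega
  have hkk : 3 * k ^ 2 ≤ (3 * k + 1) ^ 2 := by nlinarith
  rcases Nat.lt_or_ge m 4 with hm4 | hm4
  · have hm2 : m = 2 := by
      interval_cases m
      · rfl
      · simp at hm3
    subst hm2
    have h1 := (far (A := 2 * X + k) (B := 2 * b) (d := 2) (n := 3 * k ^ 2) (by
      rcases Nat.eq_zero_or_pos b with h0 | h0
      · rw [h0] at hb
        have : 0 < X * (X + k) + k ^ 2 := by positivity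
        omega
      · omega) le_rfl (by simp; omega) (Nat.succ_le_of_lt (by positivity))).2
    apply h1
    rw [mul_pow, ← hb]
    ring
  · have h1 := (far (A := a ^ 2) (B := b) (d := m) (n := 3 * k * a ^ m + 3 * k ^ 2) (by
      rcases Nat.eq_zero_or_pos b with h0 | h0
      · rw [h0, zero_pow (by omega)] at hb
        have : 0 < X * (X + k) + k ^ 2 := by positivity
        omega
      · exact h0) (by omega) (big k ha1 hm4 (by rw [← ha]; exact hAl)
        (by rw [← ha]; exact hkk.trans hAl)) (Nat.succ_le_of_lt (by positivity))).2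
    apply h1
    rw [← hb, ← pow_mul, mul_comm 2 m, pow_mul, ← ha, ← hA]
    ring

theorem cube_plus {x n y m k X : ℕ} (hx : 2 ≤ x) (hn : 2 ≤ n) (hy : 2 ≤ y) (hm : 2 ≤ m)
    (hnk : n = k ^ 3) (hx3 : x ^ n = X ^ 3) (h3x : 3 ∣ k ∨ 3 ∣ x)
    (h3z : 3 ∣ n ∨ ∃ z : ℕ, x = z ^ 3) (h : x ^ n + n = y ^ m) : False := by
  have hk2 : 2 ≤ k := by
    by_contra hcon
    have : k ≤ 1 := by omega
    interval_cases k <;> omega
  have hkpos : 0 < k := by omega
  have h1X := size_k hx hk2 hnk hx3 h3z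
  have hX0 : X ≠ 0 := by omega
  have hm3 := cop3 hy hk2 hnk h1X hx3 (Or.inr h)
  have hkk : 3 * k ^ 2 ≤ (3 * k + 1) ^ 2 := by nlinarith
  have hkX : k < X := by nlinarith
  obtain ⟨c, hc⟩ : ∃ c, X = k + c := ⟨X - k, by omega⟩
  obtain ⟨B, hB⟩ : ∃ B, B = c * X + k ^ 2 := ⟨_, rfl⟩
  have hB1 : B + X * k = X ^ 2 + k ^ 2 := by
    rw [hB, hc]
    ring
  have hd : B + 3 * X * k = (X + k) ^ 2 := by
    rw [hB, hc]
    ring
  have hB0 : B ≠ 0 := by
    have : 0 < k ^ 2 := by positivity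
    omega
  have hAB : (X + k) * B = y ^ m := by
    rw [← h, hx3, hnk, hB, hc]
    ring
  obtain ⟨⟨a, ha⟩, b, hb⟩ := cube_split hx hn hy hk2 h3x hnk hx3 hX0 (Or.inr h) hm3 hAB (by omega)
    hB0 (Or.inr rfl) (Or.inr hB1) (Or.inr hd)
  have ha1 : 1 ≤ a := by
    rcases Nat.eq_zero_or_pos a with h0 | h0
    · rw [h0, zero_pow (by omega)] at ha
      omega
    · exact h0
  have hb1 : 1 ≤ b := by
    rcases Nat.eq_zero_or_pos b with h0 | h0
    · rw [h0, zero_pow (by omega)] at hb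
      omega
    · exact h0
  rcases Nat.lt_or_ge m 4 with hm4 | hm4
  · have hm2 : m = 2 := by
      interval_cases m
      · rfl
      · simp at hm3
    subst hm2
    have h1 := (far (A := X + c) (B := 2 * b) (d := 2) (n := 3 * k ^ 2) (by omega) le_rfl
      (by simp; omega) (Nat.succ_le_of_lt (by positivity))).2
    apply h1
    rw [mul_pow, ← hb, hB, hc]
    ring
  · obtain ⟨q, hq⟩ : ∃ q, 3 * k * a ^ m = q + 3 * k ^ 2 := by
      refine ⟨3 * k * a ^ m - 3 * k ^ 2, (Nat.sub_add_cancel ?_).symm⟩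
      rw [← ha]
      nlinarith
    have hbig := big k ha1 hm4 (by rw [← ha]; omega) (by rw [← ha]; omega)
    have h1 := (far (A := a ^ 2) (B := b) (d := m) (n := q) hb1 (by omega) (by omega) (by
      rw [← ha] at hq
      have h2 : 3 * k * (X + k) = 3 * k * X + 3 * k ^ 2 := by ring
      have hXpos : 0 < X := by omega
      have h3 : 0 < 3 * k * X := by positivity
      omega)).1
    apply h1
    have h2 : (a ^ 2) ^ m + 3 * k ^ 2 = b ^ m + (q + 3 * k ^ 2) := by
      rw [← hq, ← hb, ← pow_mul, mul_comm 2 m, pow_mul, ← ha, hB, hc]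
      ring
    omega

end Pool.Agent.Y241.EX
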